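import Pool.Agent.Helper22.TB.Goals

/-!
# Project TB (MP_74f661_nt), packet TRIV: trivial bound of `Ab r (sq q)`
-/

set_option autoImplicit false

open Finset Filter Topology
open scoped Classical

namespace Pool.Agent.Helper59.TB

open Pool.Agent.Helper22.TB

theorem gTRIV : G_TRIV := by
  intro hKER hPOS hPDC hSQ hDOM q r hq hr0 hr1
  have hq0 : q ≠ 0 := hq.1.ne_zero
  have hPD : PD (sq q) := hPDC.2.2.2.2.2.2.1 q _ (hSQ.2.2 q hq)
  refine ⟨hPOS _ r hr0 hr1 hPD, ?_⟩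
  have h1 := hDOM q 1 r (by rwa [mul_one]) (Nat.coprime_one_right q) hr0 hr1
  rw [mul_one] at h1
  have hone : (fun k => sq 1 (q * k)) = fun g : ℕ => Real.cos (0 * (g : ℝ)) := by
    funext k
    rw [zero_mul, Real.cos_zero]
    unfold Pool.Agent.Helper22.TB.sq
    rw [Nat.primeFactors_one, Finset.prod_empty]
  rw [hone] at h1
  have hρ0 : 0 ≤ r ^ q := pow_nonneg hr0 q
  have hρ1 : r ^ q < 1 := pow_lt_one₀ hr0 hr1 hq0
  obtain ⟨k1, -, -⟩ := hKER 0 (r ^ q) hρ0 hρ1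
  rw [k1, Real.cos_zero] at h1
  have hCQ : 0 ≤ CQ q := by
    unfold CQ
    apply Finset.prod_nonneg
    intro p _
    positivity
  have hB : 1 - r ^ q ≤ (q : ℝ) * (1 - r) := by
    have := one_add_mul_le_pow (show (-2 : ℝ) ≤ r - 1 by linarith) q
    have e : (1 : ℝ) + (r - 1) = r := by ring
    rw [e] at this
    linarith
  have hfrac : (1 - (r ^ q) ^ 2) / (1 + 2 * r ^ q * 1 + (r ^ q) ^ 2) ≤ 1 - r ^ q := by
    rw [div_le_iff₀ (by positivity)]
    have : 0 ≤ (1 - r ^ q) * (r ^ q * (1 + r ^ q)) :=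
      mul_nonneg (by linarith) (mul_nonneg hρ0 (by linarith))
    nlinarith
  refine h1.trans (mul_le_mul_of_nonneg_left (le_min ?_ ?_) hCQ)
  · linarith
  · linarith

end Pool.Agent.Helper59.TB
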