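import Pool.Agent.Helper76.TB.Goals2
import Pool.Agent.Helper45.TB.TAIL
import Pool.Agent.Helper80.TB.BT
import Pool.Agent.Helper12.TB.INV

/-!
# Project TB, packet TAIL0: factorial moments of the window, given a chosen element at the left end
-/

set_option autoImplicit false

open Finset Filter Topology MeasureTheory ProbabilityTheory

namespace Pool.Agent.Helper59.TB

open Pool.Agent.Helper90.Twin
open Pool.Agent.Helper76.TB
open Pool.Agent.Helper45.TB (Ps_sub local_le)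

theorem zero_notMem {H k : ℕ} {J : Finset ℕ} (hJ : J ∈ (Icc 1 H).powersetCard k) : (0 : ℕ) ∉ J := by
  intro h
  have h1 := (mem_powersetCard.1 hJ).1 h
  rw [mem_Icc] at h1
  omega

theorem TZ_eq (Z H k : ℕ) :
    TZ Z H k = ∑ J ∈ (Icc 1 H).powersetCard k, avgI (Ps Z) yy (insert 0 J) := by
  unfold TZ avgI
  rw [← sum_div]
  congr 1
  rw [sum_comm]
  refine sum_congr rfl fun u _ => ?_
  rw [mul_sum]
  refine sum_congr rfl fun J hJ => ?_
  rw [prod_insert (zero_notMem hJ), add_zero]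
  rfl

/-- packet TAIL0 -/
theorem tail0 : Pool.Agent.Helper76.TB.TAIL0G := by
  obtain ⟨C, hC, hev⟩ := Pool.Agent.Helper80.TB.bt
  obtain ⟨-, hmul, hbd, h0⟩ := Pool.Agent.Helper12.TB.inv
  refine ⟨C, hC, ?_⟩
  filter_upwards [hev] with H hH Z hZ k _
  set Y := 3 * H + 1 with hY
  set D : ℝ := ∏ p ∈ Ps Z \ Ps Y, (1 - 2 / (p : ℝ)) with hD
  have hsub := Ps_sub hZ
  have hD0 : 0 ≤ D := prod_nonneg fun p hp => (factor_pos (mem_sdiff.mp hp).1).le
  have hDG : D * Gz Y = Gz Z := by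
    rw [hD]; unfold Gz GG
    exact prod_sdiff hsub
  have hsysZ : SieveSys (Ps Z) yy := sieveSys Z
  have hsysY : SieveSys (Ps Y) yy := sieveSys Y
  have hX0 : ∀ t, 0 ≤ Xz Y t := fun t => hsysY.XX_nonneg t
  have hJ : ∀ J ∈ (Icc 1 H).powersetCard k,
      avgI (Ps Z) yy (insert 0 J) ≤ D ^ (k + 1) * avgI (Ps Y) yy (insert 0 J) := by
    intro J hJ
    have hJ0 := zero_notMem hJ
    rw [mem_powersetCard] at hJ
    rw [← hmul Y Z hZ (insert 0 J)]
    have hY0 : 0 ≤ avgI (Ps Y) yy (insert 0 J) := by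
      have := (hbd 0 Y (insert 0 J)).1
      have e : Ps Y \ Ps 0 = Ps Y := by
        have : Ps 0 = ∅ := by
          ext p; rw [mem_Ps]; simp; omega
        rw [this, sdiff_empty]
      rwa [e] at this
    refine mul_le_mul_of_nonneg_right ?_ hY0
    have hsys' : SieveSys (Ps Z \ Ps Y) yy := hsysZ.mono sdiff_subset
    unfold avgI
    rw [hsys'.avg_prod (insert 0 J), hD, ← prod_pow]
    have hloc : ∀ p ∈ Ps Z \ Ps Y,
        0 ≤ (∑ x ∈ range p, ∏ i ∈ insert 0 J, (1 - yy p (x + i))) / (p : ℝ) ∧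
        (∑ x ∈ range p, ∏ i ∈ insert 0 J, (1 - yy p (x + i))) / (p : ℝ)
          ≤ (1 - 2 / (p : ℝ)) ^ (k + 1) := by
      intro p hp
      have hp' := mem_sdiff.mp hp
      have hpZ := mem_Ps.mp hp'.1
      have hpY : 3 * H + 1 < p := by
        by_contra hcon
        exact hp'.2 (mem_Ps.mpr ⟨hpZ.1, by omega, hpZ.2.2⟩)
      refine local_le (hsysZ.mono (singleton_subset_iff.mpr hp'.1)) hpZ.2.2 hpZ.1 hpY
        (insert 0 J) ?_ ?_
      · intro i hi
        rcases mem_insert.1 hi with h | h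
        · omega
        · exact (mem_Icc.mp (hJ.1 h)).2
      · rw [card_insert_of_notMem hJ0, hJ.2]
    exact prod_le_prod (fun p hp => (hloc p hp).1) (fun p hp => (hloc p hp).2)
  have hTZY : TZ Y H k ≤ Gz Y * ((C * (H * Gz Y)) ^ k / (k.factorial : ℝ)) := by
    have hpos : (0 : ℝ) < ((∏ p ∈ Ps Y, p : ℕ) : ℝ) := by
      have : 0 < ∏ p ∈ Ps Y, p := prod_pos fun p hp => (mem_Ps.mp hp).2.2.pos
      exact_mod_cast this
    have hmean : ∑ u ∈ range (∏ p ∈ Ps Y, p), Xz Y u = Gz Y * ((∏ p ∈ Ps Y, p : ℕ) : ℝ) := by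
      have h1 := h0 Y
      unfold avgI at h1
      rw [div_eq_iff hpos.ne'] at h1
      rw [← h1]
      refine sum_congr rfl fun u _ => ?_
      rw [prod_singleton, add_zero]
      rfl
    unfold TZ
    rw [div_le_iff₀ hpos]
    calc ∑ u ∈ range (∏ p ∈ Ps Y, p),
          Xz Y u * ∑ J ∈ (Icc 1 H).powersetCard k, ∏ i ∈ J, Xz Y (u + i)
        ≤ ∑ u ∈ range (∏ p ∈ Ps Y, p),
            Xz Y u * ((C * (H * Gz Y)) ^ k / (k.factorial : ℝ)) := by
          refine sum_le_sum fun u _ => ?_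
          refine mul_le_mul_of_nonneg_left ?_ (hX0 u)
          have h3 := EE_le (s := Icc 1 H) (a := fun i => Xz Y (u + i)) (fun i _ => hX0 _) k
          unfold EE at h3
          refine h3.trans ?_
          refine div_le_div_of_nonneg_right ?_ (by positivity)
          exact pow_le_pow_left₀ (sum_nonneg fun i _ => hX0 _) (hH u) k
      _ = Gz Y * ((C * (H * Gz Y)) ^ k / (k.factorial : ℝ)) * ((∏ p ∈ Ps Y, p : ℕ) : ℝ) := by
          rw [← sum_mul, hmean]
          ring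
  calc TZ Z H k = ∑ J ∈ (Icc 1 H).powersetCard k, avgI (Ps Z) yy (insert 0 J) := TZ_eq Z H k
    _ ≤ ∑ J ∈ (Icc 1 H).powersetCard k, D ^ (k + 1) * avgI (Ps Y) yy (insert 0 J) :=
        sum_le_sum hJ
    _ = D ^ (k + 1) * TZ Y H k := by rw [TZ_eq, mul_sum]
    _ ≤ D ^ (k + 1) * (Gz Y * ((C * (H * Gz Y)) ^ k / (k.factorial : ℝ))) :=
        mul_le_mul_of_nonneg_left hTZY (pow_nonneg hD0 _)
    _ = Gz Z * ((C * (H * Gz Z)) ^ k / (k.factorial : ℝ)) := by
        rw [← hDG]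
        have e : (C * (H * (D * Gz Y))) ^ k = D ^ k * (C * (H * Gz Y)) ^ k := by
          rw [← mul_pow]
          congr 1
          ring
        rw [e, pow_succ]
        ring

end Pool.Agent.Helper59.TB
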